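import Pool.Agent.Lib.MP_62a449_al.Five.Asm
import Pool.Agent.Lib.MP_62a449_al.Five.Cert.M01
import Pool.Agent.Lib.MP_62a449_al.Five.Cert.M02
import Pool.Agent.Lib.MP_62a449_al.Five.Cert.M03
import Pool.Agent.Lib.MP_62a449_al.Five.Cert.M04

/-! The claims proved by the certificates. -/

namespace Pool.Agent.MP_62a449_al.Five

theorem claimC0 : Claim false false 0x64945918698700000000000000000000000000658e189a49a2 := clm chkC0 rnil

theorem claimC1 : Claim false false 0x64945818698f00000000000000000000000000658e1c9a4982 := clm chkC1 rnil

theorem claimC2 : Claim false false 0x64945918698f00000000000000000000000000658e189a4982 := clm chkC2 rnil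

theorem claimC3 : Claim false false 0x4524550cd1c700000000000000000000000000e34e28c8a8a2 := clm chkC3 rnil

theorem claimC4 : Claim false false 0x5524550cd1c700000000000000000000000000a34e28c8a8a2 := clm chkC4 rnil

theorem claimC5 : Claim false false 0x6524950c83c700000000000000000000000000634d28c9e0a2 := clm chkC5 rnil

theorem claimC6 : Claim false false 0x6515151443c700000000000000000000000000638b28aae0a2 := clm chkC6 rnil

theorem claimC7 : Claim false false 0x6524910ca3c700000000000000000000000000634d38c960a2 := clm chkC7 rnil

theorem claimC8 : Claim false false 0x6524990ca3c700000000000000000000000000634d18c960a2 := clm chkC8 rnil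

theorem claimC9 : Claim false false 0x6524930ca3c700000000000000000000000000634d30c960a2 := clm chkC9 rnil

theorem claimC10 : Claim false false 0x2515151643c700000000000000000000000001638b28a2e0a2 := clm chkC10 rnil

theorem claimC11 : Claim false false 0x65151514c3c700000000000000000000000000638b28a8e0a2 := clm chkC11 rnil

theorem claimC12 : Claim false false 0x6526950c83c700000000000000000000000000634528c9e0a2 := clm chkC12 rnil

theorem claimC13 : Claim false false 0x6517151443c700000000000000000000000000638328aae0a2 := clm chkC13 rnil

theorem claimC14 : Claim false false 0x6526910ca3c700000000000000000000000000634538c960a2 := clm chkC14 rnil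

theorem claimC15 : Claim false false 0x6526990ca3c700000000000000000000000000634518c960a2 := clm chkC15 rnil

theorem claimC16 : Claim false false 0x6526930ca3c700000000000000000000000000634530c960a2 := clm chkC16 rnil

theorem claimC17 : Claim false false 0x64d45918698700000000000000000000000000648e189a49a2 := clm chkC17 rnil

theorem claimC18 : Claim false false 0x64965a18688f000000000000000000000000006586149a4d82 := clm chkC18 rnil

theorem claimC19 : Claim false false 0x64965a18788f000000000000000000000000006586149a0d82 := clm chkC19 rnil

theorem claimC20 : Claim false false 0x6d24950c83c700000000000000000000000000434d28c9e0a2 := clm chkC20 rnil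

theorem claimC21 : Claim false false 0x6555151443c700000000000000000000000000628b28aae0a2 := clm chkC21 rnil

theorem claimC22 : Claim false false 0x6d24990ca3c700000000000000000000000000434d18c960a2 := clm chkC22 rnil

theorem claimC23 : Claim false false 0x65551514c3c700000000000000000000000000628b28a8e0a2 := clm chkC23 rnil

theorem claimC24 : Claim false false 0x1d30930e32e700000000000000000000000001831d30c32422 := clm chkC24 rnil

theorem claimC25 : Claim false false 0x69651526c3c700000000000000000000000000524b2860e0a2 := clm chkC25 rnil

theorem claimC26 : Claim false false 0x5d30930e32e700000000000000000000000000831d30c32422 := clm chkC26 rnil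

theorem claimC27 : Claim false false 0x5d30930c32e700000000000000000000000000831d30cb2422 := clm chkC27 rnil

theorem claimC28 : Claim false false 0x64d45938698700000000000000000000000000648e181a49a2 := clm chkC28 rnil

theorem claimC29 : Claim false false 0x65a4910ca3c700000000000000000000000000614d38c960a2 := clm chkC29 rnil

theorem claimC30 : Claim false false 0x4d051714d2cf00000000000000000000000000c3cb20a8a482 := clm chkC30 rnil

theorem claimC31 : Claim false false 0x4d15171453c700000000000000000000000000c38b20aaa0a2 := clm chkC31 rnil

theorem claimC32 : Claim false false 0x65a6950c83c700000000000000000000000000614528c9e0a2 := clm chkC32 rnil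

theorem claimC33 : Claim false false 0x4d051714d3c700000000000000000000000000c3cb20a8a0a2 := clm chkC33 rnil

theorem claimC34 : Claim false false 0x4d151714d3c700000000000000000000000000c38b20a8a0a2 := clm chkC34 rnil

theorem claimC35 : Claim false false 0x4c24d30cbac700000000000000000000000000c74c30c904a2 := clm chkC35 rnil

theorem claimC36 : Claim false false 0x65a6910ca3c700000000000000000000000000614538c960a2 := clm chkC36 rnil

theorem claimC37 : Claim false false 0x4ca4d30cbac700000000000000000000000000c54c30c904a2 := clm chkC37 rnil

theorem claimC38 : Claim false false 0x5464d30cbac700000000000000000000000000a64c30c904a2 := clm chkC38 rnil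

theorem claimC39 : Claim false false 0x5155593871c700000000000000000000000000b28a181a28a2 := clm chkC39 rnil

theorem claimC40 : Claim false false 0x4524d50cd1c700000000000000000000000000e34c28c8a8a2 := clm chkC40 rnil

theorem claimC41 : Claim false false 0x6517151453c700000000000000000000000000638328aaa0a2 := clm chkC41 rnil

theorem claimC42 : Claim false false 0x45065d1cd1c700000000000000000000000000e3c60888a8a2 := clm chkC42 rnil

theorem claimC43 : Claim false false 0x55065d1cd1c700000000000000000000000000a3c60888a8a2 := clm chkC43 rnil

theorem claimC44 : Claim false false 0x649713147a8700000000000000000000000000658330aa05a2 := clm chkC44 rnil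

theorem claimC45 : Claim false false 0x6526d30ca2c700000000000000000000000000634430c964a2 := clm chkC45 rnil

theorem claimC46 : Claim false false 0x2d34551e41c700000000000000000000000001430e2882e8a2 := clm chkC46 rnil

theorem claimC47 : Claim false false 0x2d34551e51c700000000000000000000000001430e2882a8a2 := clm chkC47 rnil

theorem claimC48 : Claim false false 0x6526d30cb2c700000000000000000000000000634430c924a2 := clm chkC48 rnil

theorem claimC49 : Claim false false 0x6c9553146a8700000000000000000000000000458a30aa45a2 := clm chkC49 rnil

theorem claimC50 : Claim false false 0x4c24d30cb8c700000000000000000000000000c74c30c90ca2 := clm chkC50 rnil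

theorem claimC51 : Claim false false 0x4ca4d30cb8c700000000000000000000000000c54c30c90ca2 := clm chkC51 rnil

theorem claimC52 : Claim false false 0x5155593071c700000000000000000000000000b28a183a28a2 := clm chkC52 rnil

theorem claimC53 : Claim false false 0x65a4950c83c700000000000000000000000000614d28c9e0a2 := clm chkC53 rnil

theorem claimC54 : Claim false false 0x21651526c3c700000000000000000000000001724b2860e0a2 := clm chkC54 rnil

theorem claimC55 : Claim false false 0x5564d30cb2c700000000000000000000000000a24c30c924a2 := clm chkC55 rnil

theorem claimC56 : Claim false false 0x4524d30cb2c700000000000000000000000000e34c30c924a2 := clm chkC56 rnil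

theorem claimC57 : Claim false false 0x5464d30cb8c700000000000000000000000000a64c30c90ca2 := clm chkC57 rnil

theorem claimC58 : Claim false false 0x649553146a8700000000000000000000000000658a30aa45a2 := clm chkC58 rnil

theorem claimC59 : Claim false false 0x60d45938698700000000000000000000000000748e181a49a2 := clm chkC59 rnil

theorem claimC60 : Claim false false 0xdb0930e32e700000000000000000000000001c11d30c32422 := clm chkC60 rnil

theorem claimC61 : Claim false false 0x4db0930c32e700000000000000000000000000c11d30cb2422 := clm chkC61 rnil

theorem claimC62 : Claim false false 0x4db0930e32e700000000000000000000000000c11d30c32422 := clm chkC62 rnil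

theorem claimC63 : Claim false false 0x35141c1a43cf00000000000000000000000001238f0c92e082 := clm chkC63 rnil

theorem claimC64 : Claim false false 0x35145c1a43cf00000000000000000000000001238e0c92e082 := clm chkC64 rnil

theorem claimC65 : Claim false false 0x2d34550e41c700000000000000000000000001430e28c2e8a2 := clm chkC65 rnil

theorem claimC66 : Claim false false 0x6524d30ca2c700000000000000000000000000634c30c964a2 := clm chkC66 rnil

theorem claimC67 : Claim false false 0x2d34550e51c700000000000000000000000001430e28c2a8a2 := clm chkC67 rnil

theorem claimC68 : Claim false false 0x4d15151453c700000000000000000000000000c38b28aaa0a2 := clm chkC68 rnil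

theorem claimC69 : Claim false false 0x4d151b1072c700000000000000000000000000c38b10ba24a2 := clm chkC69 rnil

theorem claimC70 : Claim false false 0x4d14131c72c700000000000000000000000000c38f308a24a2 := clm chkC70 rnil

theorem claimC71 : Claim false false 0x4524551cd1c700000000000000000000000000e34e2888a8a2 := clm chkC71 rnil

theorem claimC72 : Claim false false 0x5524551cd1c700000000000000000000000000a34e2888a8a2 := clm chkC72 rnil

theorem claimC73 : Claim false false 0x6515151453c700000000000000000000000000638b28aaa0a2 := clm chkC73 rnil

theorem claimC74 : Claim false false 0x4506551cd1c700000000000000000000000000e3c62888a8a2 := clm chkC74 rnil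

theorem claimC75 : Claim false false 0x5506551cd1c700000000000000000000000000a3c62888a8a2 := clm chkC75 rnil

theorem claimC76 : Claim false false 0x4d051714d2c700000000000000000000000000c3cb20a8a4a2 := clm chkC76 rnil

theorem claimC77 : Claim false false 0x4d051514d3c700000000000000000000000000c3cb28a8a0a2 := clm chkC77 rnil

theorem claimC78 : Claim false false 0x1d30932e32e700000000000000000000000001831d30432422 := clm chkC78 rnil

theorem claimC79 : Claim false false 0x4d151514d3c700000000000000000000000000c38b28a8a0a2 := clm chkC79 rnil

theorem claimC80 : Claim false false 0x6524d30cb2c700000000000000000000000000634c30c924a2 := clm chkC80 rnil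

theorem claimC81 : Claim false false 0x64945938698700000000000000000000000000658e181a49a2 := clm chkC81 rnil

theorem claimC82 : Claim false false 0x649513147a8700000000000000000000000000658b30aa05a2 := clm chkC82 rnil

theorem claimC83 : Claim false false 0x61251526c3c700000000000000000000000000734b2860e0a2 := clm chkC83 rnil

theorem claimC84 : Claim false false 0x4522930cb2e700000000000000000000000000e35530c92422 := clm chkC84 rnil

theorem claimC85 : Claim false false 0x4d30930c32e700000000000000000000000000c31d30cb2422 := clm chkC85 rnil

theorem claimC86 : Claim false false 0x1530930e32e700000000000000000000000001a31d30c32422 := clm chkC86 rnil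

theorem claimC87 : Claim false false 0x3530930e32e700000000000000000000000001231d30c32422 := clm chkC87 rnil

theorem claimC88 : Claim false false 0x6c9713147a8700000000000000000000000000458330aa05a2 := clm chkC88 rnil

theorem claimC89 : Claim false false 0x7464d30cbac700000000000000000000000000264c30c904a2 := clm chkC89 rnil

theorem claimC90 : Claim false false 0x4d151714f3c700000000000000000000000000c38b20a820a2 := clm chkC90 rnil

theorem claimC91 : Claim false false 0x1db0932e32e700000000000000000000000001811d30432422 := clm chkC91 rnil

theorem refsC : ∀ L ∈ clsC, Claim false false L :=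
  rcons claimC0 <| rcons claimC1 <| rcons claimC2 <| rcons claimC3 <| rcons claimC4 <| rcons claimC5 <| rcons claimC6 <| rcons claimC7 <| rcons claimC8 <| rcons claimC9 <| rcons claimC10 <| rcons claimC11 <| rcons claimC12 <| rcons claimC13 <| rcons claimC14 <| rcons claimC15 <| rcons claimC16 <| rcons claimC17 <| rcons claimC18 <| rcons claimC19 <| rcons claimC20 <| rcons claimC21 <| rcons claimC22 <| rcons claimC23 <| rcons claimC24 <| rcons claimC25 <| rcons claimC26 <| rcons claimC27 <| rcons claimC28 <| rcons claimC29 <| rcons claimC30 <| rcons claimC31 <| rcons claimC32 <| rcons claimC33 <| rcons claimC34 <| rcons claimC35 <| rcons claimC36 <| rcons claimC37 <| rcons claimC38 <| rcons claimC39 <| rcons claimC40 <| rcons claimC41 <| rcons claimC42 <| rcons claimC43 <| rcons claimC44 <| rcons claimC45 <| rcons claimC46 <| rcons claimC47 <| rcons claimC48 <| rcons claimC49 <| rcons claimC50 <| rcons claimC51 <| rcons claimC52 <| rcons claimC53 <| rcons claimC54 <| rcons claimC55 <| rcons claimC56 <| rcons claimC57 <| rcons claimC58 <| rcons claimC59 <| rcons claimC60 <| rcons claimC61 <| rcons claimC62 <| rcons claimC63 <| rcons claimC64 <| rcons claimC65 <| rcons claimC66 <|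 rcons claimC67 <| rcons claimC68 <| rcons claimC69 <| rcons claimC70 <| rcons claimC71 <| rcons claimC72 <| rcons claimC73 <| rcons claimC74 <| rcons claimC75 <| rcons claimC76 <| rcons claimC77 <| rcons claimC78 <| rcons claimC79 <| rcons claimC80 <| rcons claimC81 <| rcons claimC82 <| rcons claimC83 <| rcons claimC84 <| rcons claimC85 <| rcons claimC86 <| rcons claimC87 <| rcons claimC88 <| rcons claimC89 <| rcons claimC90 <| rcons claimC91 <| rnil

end Pool.Agent.MP_62a449_al.Five
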