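import Pool.Agent.Lib.MP_62a449_al.Five.Asm
import Pool.Agent.Lib.MP_62a449_al.Five.Cert.M04
import Pool.Agent.Lib.MP_62a449_al.Five.Cert.M05
import Pool.Agent.Lib.MP_62a449_al.Five.Cert.M06
import Pool.Agent.Lib.MP_62a449_al.Five.Cert.M07
import Pool.Agent.Lib.MP_62a449_al.Five.Cert.M08
import Pool.Agent.Lib.MP_62a449_al.Five.Cert.M09
import Pool.Agent.Lib.MP_62a449_al.Five.Cert.M10
import Pool.Agent.Lib.MP_62a449_al.Five.Cert.M11
import Pool.Agent.Lib.MP_62a449_al.Five.Cert.M12
import Pool.Agent.Lib.MP_62a449_al.Five.Cert.M13
import Pool.Agent.Lib.MP_62a449_al.Five.Cert.M14
import Pool.Agent.Lib.MP_62a449_al.Five.Cert.M15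
import Pool.Agent.Lib.MP_62a449_al.Five.Cert.M16
import Pool.Agent.Lib.MP_62a449_al.Five.Cert.M17
import Pool.Agent.Lib.MP_62a449_al.Five.Cert.M46
import Pool.Agent.Lib.MP_62a449_al.Five.Cert.ClmC

/-! The claims proved by the certificates. -/

namespace Pool.Agent.MP_62a449_al.Five

theorem claimR0p1 : Claim false false 0x42183800080000000000000000000000000010840410000e := clm chkR0p1 refsC

theorem claimR0p2 : Claim false false 0x42193800080000000000000000000000000010840010000e := clm chkR0p2 refsC

theorem claimR0p3 : Claim false false 0x442183800400000000000000000000000000000840010000e := clm chkR0p3 refsC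

theorem claimR0p0 : Claim false false 0x42183800000000000000000000000000000000840010000e := clm chkR0p0 (rapp refsC (rcons claimR0p1 (rcons claimR0p2 (rcons claimR0p3 rnil))))

theorem claimR0p5 : Claim false false 0x62183800200000000000000000000000000010040010000e := clm chkR0p5 refsC

theorem claimR0p4 : Claim false false 0x62183800000000000000000000000000000000040010000e := clm chkR0p4 (rapp refsC (rcons claimR0p5 rnil))

theorem claimR0p7 : Claim false false 0x43183802000000000000000000000000000010800010000e := clm chkR0p7 refsC

theorem claimR0p6 : Claim false false 0x43183800000000000000000000000000000000800010000e := clm chkR0p6 (rapp refsC (rcons claimR0p7 rnil))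

theorem claimR0p8 : Claim false false 0x63183800000000000000000000000000000000000010000e := clm chkR0p8 refsC

theorem claimR0 : Claim false false 0x42183800000000000000000000000000000000000010000e := clm chkR0 (rapp refsC (rcons claimR0p0 (rcons claimR0p4 (rcons claimR0p6 (rcons claimR0p8 rnil)))))

theorem claimR1p1 : Claim false false 0x8021838000a00000000000000000000000000118404100016 := clm chkR1p1 refsC

theorem claimR1p2 : Claim false false 0x8021938000a00000000000000000000000000118400100016 := clm chkR1p2 refsC

theorem claimR1p5 : Claim false false 0x21838002e00000000000000000000000000319404100006 := clm chkR1p5 refsC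

theorem claimR1p6 : Claim false false 0x61838002e00000000000000000000000000318404100006 := clm chkR1p6 refsC

theorem claimR1p4 : Claim false false 0x21838000e00000000000000000000000000318404100006 := clm chkR1p4 (rapp refsC (rcons claimR1p5 (rcons claimR1p6 rnil)))

theorem claimR1p7 : Claim false false 0x21938000e00000000000000000000000000318400100006 := clm chkR1p7 refsC

theorem claimR1p3 : Claim false false 0x21838000600000000000000000000000000318400100006 := clm chkR1p3 (rapp refsC (rcons claimR1p4 (rcons claimR1p7 rnil)))

theorem claimR1p9 : Claim false false 0x8021838000e00000000000000000000000000118404100006 := clm chkR1p9 refsC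

theorem claimR1p10 : Claim false false 0x8021938000e00000000000000000000000000118400100006 := clm chkR1p10 refsC

theorem claimR1p8 : Claim false false 0x8021838000600000000000000000000000000118400100006 := clm chkR1p8 (rapp refsC (rcons claimR1p9 (rcons claimR1p10 rnil)))

theorem claimR1p11 : Claim false false 0xc021938000200000000000000000000000000018400100036 := clm chkR1p11 refsC

theorem claimR1p13 : Claim false false 0xc061838000a00000000000000000000000000018404100096 := clm chkR1p13 refsC

theorem claimR1p14 : Claim false false 0xc021838002a00000000000000000000000000018404100016 := clm chkR1p14 refsC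

theorem claimR1p12 : Claim false false 0xc021838000a00000000000000000000000000018400100016 := clm chkR1p12 (rapp refsC (rcons claimR1p13 (rcons claimR1p14 rnil)))

theorem claimR1p15 : Claim false false 0x4021938000600000000000000000000000000218400100026 := clm chkR1p15 refsC

theorem claimR1p17 : Claim false false 0x4061838000e00000000000000000000000000218404100086 := clm chkR1p17 refsC

theorem claimR1p18 : Claim false false 0x4021838002e00000000000000000000000000218404100006 := clm chkR1p18 refsC

theorem claimR1p16 : Claim false false 0x4021838000e00000000000000000000000000218400100006 := clm chkR1p16 (rapp refsC (rcons claimR1p17 (rcons claimR1p18 rnil)))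

theorem claimR1p19 : Claim false false 0xc021838000e00000000000000000000000000018404100006 := clm chkR1p19 refsC

theorem claimR1p20 : Claim false false 0xc021938000e00000000000000000000000000018400100006 := clm chkR1p20 refsC

theorem claimR1p0 : Claim false false 0x21838000200000000000000000000000000018400100006 := clm chkR1p0 (rapp refsC (rcons claimR1p1 (rcons claimR1p2 (rcons claimR1p3 (rcons claimR1p8 (rcons claimR1p11 (rcons claimR1p12 (rcons claimR1p15 (rcons claimR1p16 (rcons claimR1p19 (rcons claimR1p20 rnil)))))))))))

theorem claimR1p22 : Claim false false 0x321938002200000000000000000000000000111400120026 := clm chkR1p22 refsC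

theorem claimR1p23 : Claim false false 0x321838002a00000000000000000000000000111400120006 := clm chkR1p23 refsC

theorem claimR1p24 : Claim false false 0x221838802200000000000000000000000000115400100006 := clm chkR1p24 refsC

theorem claimR1p21 : Claim false false 0x221838000200000000000000000000000000110400100006 := clm chkR1p21 (rapp refsC (rcons claimR1p22 (rcons claimR1p23 (rcons claimR1p24 rnil))))

theorem claimR1p25 : Claim false false 0x4221838002200000000000000000000000000010400100006 := clm chkR1p25 refsC

theorem claimR1p27 : Claim false false 0x39a38020200000000000000000000000000118100110406 := clm chkR1p27 refsC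

theorem claimR1p28 : Claim false false 0x39838030200000000000000000000000000118100110006 := clm chkR1p28 refsC

theorem claimR1p29 : Claim false false 0x31a38420200000000000000000000000000118300100406 := clm chkR1p29 refsC

theorem claimR1p30 : Claim false false 0x31838430200000000000000000000000000118300100006 := clm chkR1p30 refsC

theorem claimR1p26 : Claim false false 0x31838000200000000000000000000000000118000100006 := clm chkR1p26 (rapp refsC (rcons claimR1p27 (rcons claimR1p28 (rcons claimR1p29 (rcons claimR1p30 rnil)))))

theorem claimR1p31 : Claim false false 0x4031838020200000000000000000000000000018000100006 := clm chkR1p31 refsC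

theorem claimR1p32 : Claim false false 0x231838000200000000000000000000000000110000100006 := clm chkR1p32 refsC

theorem claimR1 : Claim false false 0x21838000200000000000000000000000000010000100006 := clm chkR1 (rapp refsC (rcons claimR1p0 (rcons claimR1p21 (rcons claimR1p25 (rcons claimR1p26 (rcons claimR1p31 (rcons claimR1p32 rnil)))))))

theorem claimR2p1 : Claim false false 0x8421838000200000000000000000000000000108400100016 := clm chkR2p1 refsC

theorem claimR2p2 : Claim false false 0x421838000e00000000000000000000000000308400100006 := clm chkR2p2 refsC

theorem claimR2p3 : Claim false false 0x8421838000600000000000000000000000000108400100006 := clm chkR2p3 refsC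

theorem claimR2p4 : Claim false false 0x4421838000200000000000000000000000000008400100006 := clm chkR2p4 refsC

theorem claimR2p5 : Claim false false 0x621838002200000000000000000000000000100400100006 := clm chkR2p5 refsC

theorem claimR2p0 : Claim false false 0x421838000200000000000000000000000000000400100006 := clm chkR2p0 (rapp refsC (rcons claimR2p1 (rcons claimR2p2 (rcons claimR2p3 (rcons claimR2p4 (rcons claimR2p5 rnil))))))

theorem claimR2p7 : Claim false false 0x431838020200000000000000000000000000108000100006 := clm chkR2p7 refsC

theorem claimR2p6 : Claim false false 0x431838000200000000000000000000000000000000100006 := clm chkR2p6 (rapp refsC (rcons claimR2p7 rnil))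

theorem claimR2 : Claim false false 0x421838000200000000000000000000000000000000100006 := clm chkR2 (rapp refsC (rcons claimR2p0 (rcons claimR2p6 rnil)))

theorem claimR3p2 : Claim false false 0x8001838008b00000000000000000000000000518c04100012 := clm chkR3p2 refsC

theorem claimR3p3 : Claim false false 0x18001838008b00000000000000000000000000118c04100012 := clm chkR3p3 refsC

theorem claimR3p1 : Claim false false 0x8001838000b00000000000000000000000000118c04100012 := clm chkR3p1 (rapp refsC (rcons claimR3p2 (rcons claimR3p3 rnil)))

theorem claimR3p4 : Claim false false 0x8001938000b00000000000000000000000000118c00100012 := clm chkR3p4 refsC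

theorem claimR3p0 : Claim false false 0x8001838000300000000000000000000000000118c00100012 := clm chkR3p0 (rapp refsC (rcons claimR3p1 (rcons claimR3p4 rnil)))

theorem claimR3p5 : Claim false false 0x1838000700000000000000000000000000118c00100002 := clm chkR3p5 refsC

theorem claimR3p6 : Claim false false 0xc001938000300000000000000000000000000018c00100032 := clm chkR3p6 refsC

theorem claimR3p8 : Claim false false 0xc801838000b00000000000000000000000000018c04100112 := clm chkR3p8 refsC

theorem claimR3p9 : Claim false false 0xc001838004b00000000000000000000000000018c04100012 := clm chkR3p9 refsC

theorem claimR3p7 : Claim false false 0xc001838000b00000000000000000000000000018c00100012 := clm chkR3p7 (rapp refsC (rcons claimR3p8 (rcons claimR3p9 rnil)))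

theorem claimR3p10 : Claim false false 0x4001838000700000000000000000000000000218c00100002 := clm chkR3p10 refsC

theorem claimR3p11 : Claim false false 0xc001838000700000000000000000000000000018c00100002 := clm chkR3p11 refsC

theorem claimR3p12 : Claim false false 0x8201938000300000000000000000000000000110c00100032 := clm chkR3p12 refsC

theorem claimR3p14 : Claim false false 0x8241838000b00000000000000000000000000110c04100092 := clm chkR3p14 refsC

theorem claimR3p15 : Claim false false 0x8201838002b00000000000000000000000000110c04100012 := clm chkR3p15 refsC

theorem claimR3p13 : Claim false false 0x8201838000b00000000000000000000000000110c00100012 := clm chkR3p13 (rapp refsC (rcons claimR3p14 (rcons claimR3p15 rnil)))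

theorem claimR3p16 : Claim false false 0x201838000700000000000000000000000000310c00100002 := clm chkR3p16 refsC

theorem claimR3p17 : Claim false false 0x8201838000700000000000000000000000000110c00100002 := clm chkR3p17 refsC

theorem claimR3p18 : Claim false false 0xc201938000300000000000000000000000000010c00100032 := clm chkR3p18 refsC

theorem claimR3p19 : Claim false false 0xc201838000b00000000000000000000000000010c00100012 := clm chkR3p19 refsC

theorem claimR3p21 : Claim false false 0x8019838020300000000000000000000000000118900110012 := clm chkR3p21 refsC

theorem claimR3p22 : Claim false false 0x8011838420300000000000000000000000000118900100012 := clm chkR3p22 refsC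

theorem claimR3p20 : Claim false false 0x11838000300000000000000000000000000118800100002 := clm chkR3p20 (rapp refsC (rcons claimR3p21 (rcons claimR3p22 rnil)))

theorem claimR3p23 : Claim false false 0x4011838000300000000000000000000000000018800100002 := clm chkR3p23 refsC

theorem claimR3p24 : Claim false false 0x211838000300000000000000000000000000110800100002 := clm chkR3p24 refsC

theorem claimR3 : Claim false false 0x1838000300000000000000000000000000010800100002 := clm chkR3 (rapp refsC (rcons claimR3p0 (rcons claimR3p5 (rcons claimR3p6 (rcons claimR3p7 (rcons claimR3p10 (rcons claimR3p11 (rcons claimR3p12 (rcons claimR3p13 (rcons claimR3p16 (rcons claimR3p17 (rcons claimR3p18 (rcons claimR3p19 (rcons claimR3p20 (rcons claimR3p23 (rcons claimR3p24 rnil))))))))))))))))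

theorem claimR4p1 : Claim false false 0x8401838000b00000000000000000000000000108c04100012 := clm chkR4p1 refsC

theorem claimR4p2 : Claim false false 0x8401938000b00000000000000000000000000108c00100012 := clm chkR4p2 refsC

theorem claimR4p0 : Claim false false 0x8401838000300000000000000000000000000108c00100012 := clm chkR4p0 (rapp refsC (rcons claimR4p1 (rcons claimR4p2 rnil)))

theorem claimR4p3 : Claim false false 0x401838000700000000000000000000000000108c00100002 := clm chkR4p3 refsC

theorem claimR4p5 : Claim false false 0x8601838000b00000000000000000000000000100c04100012 := clm chkR4p5 refsC

theorem claimR4p6 : Claim false false 0x8601938000b00000000000000000000000000100c00100012 := clm chkR4p6 refsC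

theorem claimR4p4 : Claim false false 0x8601838000300000000000000000000000000100c00100012 := clm chkR4p4 (rapp refsC (rcons claimR4p5 (rcons claimR4p6 rnil)))

theorem claimR4p7 : Claim false false 0x601838000700000000000000000000000000100c00100002 := clm chkR4p7 refsC

theorem claimR4p8 : Claim false false 0xc401838000300000000000000000000000000008c00100012 := clm chkR4p8 refsC

theorem claimR4p9 : Claim false false 0x4401838000700000000000000000000000000008c00100002 := clm chkR4p9 refsC

theorem claimR4p10 : Claim false false 0x8411838000300000000000000000000000000108800100012 := clm chkR4p10 refsC

theorem claimR4p11 : Claim false false 0x411838000700000000000000000000000000108800100002 := clm chkR4p11 refsC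

theorem claimR4p12 : Claim false false 0x8611838000300000000000000000000000000100800100012 := clm chkR4p12 refsC

theorem claimR4p13 : Claim false false 0x611838000700000000000000000000000000100800100002 := clm chkR4p13 refsC

theorem claimR4 : Claim false false 0x401838000300000000000000000000000000000800100002 := clm chkR4 (rapp refsC (rcons claimR4p0 (rcons claimR4p3 (rcons claimR4p4 (rcons claimR4p7 (rcons claimR4p8 (rcons claimR4p9 (rcons claimR4p10 (rcons claimR4p11 (rcons claimR4p12 (rcons claimR4p13 rnil)))))))))))

theorem claimR5p1 : Claim false false 0x8421838000300000000000000000000000000108400100012 := clm chkR5p1 refsC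

theorem claimR5p2 : Claim false false 0x421838000700000000000000000000000000108400100002 := clm chkR5p2 refsC

theorem claimR5p0 : Claim false false 0x421838000300000000000000000000000000000400100002 := clm chkR5p0 (rapp refsC (rcons claimR5p1 (rcons claimR5p2 rnil)))

theorem claimR5p3 : Claim false false 0x431838000300000000000000000000000000108000100002 := clm chkR5p3 refsC

theorem claimR5 : Claim false false 0x421838000300000000000000000000000000000000100002 := clm chkR5 (rapp refsC (rcons claimR5p0 (rcons claimR5p3 rnil)))

theorem claimR6p0 : Claim false false 0x8000838000380000000000000000000000000018c40100010 := clm chkR6p0 refsC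

theorem claimR6p1 : Claim false false 0x8200838000380000000000000000000000000010c40100010 := clm chkR6p1 refsC

theorem claimR6 : Claim false false 0x838000380000000000000000000000000010840100000 := clm chkR6 (rapp refsC (rcons claimR6p0 (rcons claimR6p1 rnil)))

theorem claimR7p1 : Claim false false 0x8400838000380000000000000000000000000108c40100010 := clm chkR7p1 refsC

theorem claimR7p2 : Claim false false 0x8600838000380000000000000000000000000100c40100010 := clm chkR7p2 refsC

theorem claimR7p0 : Claim false false 0x8400838000380000000000000000000000000100840100010 := clm chkR7p0 (rapp refsC (rcons claimR7p1 (rcons claimR7p2 rnil)))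

theorem claimR7p3 : Claim false false 0xc400838000380000000000000000000000000000c40100010 := clm chkR7p3 refsC

theorem claimR7 : Claim false false 0x400838000380000000000000000000000000000840100000 := clm chkR7 (rapp refsC (rcons claimR7p0 (rcons claimR7p3 rnil)))

theorem claimR8p0 : Claim false false 0x8420838000380000000000000000000000000008040100010 := clm chkR8p0 refsC

theorem claimR8 : Claim false false 0x420838000380000000000000000000000000000040100000 := clm chkR8 (rapp refsC (rcons claimR8p0 rnil))

theorem claimR9 : Claim false false 0x421838000380000000000000000000000000000000100000 := clm chkR9 refsC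

theorem claimROOT : Claim false false 0x38000000000000000000000000000000000000000000 := clm chkROOT (rcons claimR0 (rcons claimR1 (rcons claimR2 (rcons claimR3 (rcons claimR4 (rcons claimR5 (rcons claimR6 (rcons claimR7 (rcons claimR8 (rcons claimR9 rnil))))))))))

end Pool.Agent.MP_62a449_al.Five
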