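import Pool.Agent.Lib.MP_62a449_al.Five.Asm
import Pool.Agent.Lib.MP_62a449_al.Five.Cert.M42
import Pool.Agent.Lib.MP_62a449_al.Five.Cert.M43
import Pool.Agent.Lib.MP_62a449_al.Five.Cert.M44
import Pool.Agent.Lib.MP_62a449_al.Five.Cert.M45
import Pool.Agent.Lib.MP_62a449_al.Five.Cert.M46
import Pool.Agent.Lib.MP_62a449_al.Five.Cert.ClmD

/-! The claims proved by the certificates. -/

namespace Pool.Agent.MP_62a449_al.Five

theorem claimSp1 : Claim true false 0x10830800000000000000000000000000000000006086 := clm chkSp1 refsD

theorem claimSp2 : Claim true false 0x930800000000000000000000000000000000002086 := clm chkSp2 refsD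

theorem claimSp0 : Claim true false 0x30800000000000000000000000000000000000086 := clm chkSp0 (rapp refsD (rcons claimSp1 (rcons claimSp2 rnil)))

theorem claimSp4 : Claim true false 0x22490000000000000000000000000000000000048a := clm chkSp4 refsD

theorem claimSp6 : Claim true false 0x4020b00000000000000000000000000000000008492 := clm chkSp6 refsD

theorem claimSp7 : Claim true false 0x20f00000000000000000000000000000000008482 := clm chkSp7 refsD

theorem claimSp5 : Claim true false 0x20b00000000000000000000000000000000000482 := clm chkSp5 (rapp refsD (rcons claimSp6 (rcons claimSp7 rnil)))

theorem claimSp8 : Claim true false 0x830900000000000000000000000000000000002082 := clm chkSp8 refsD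

theorem claimSp9 : Claim true false 0xb0900000000000000000000000000000000000082 := clm chkSp9 refsD

theorem claimSp3 : Claim true false 0x20900000000000000000000000000000000000082 := clm chkSp3 (rapp refsD (rcons claimSp4 (rcons claimSp5 (rcons claimSp8 (rcons claimSp9 rnil)))))

theorem claimSp11 : Claim true false 0x28402800000000000000000000000000000000080b02 := clm chkSp11 refsD

theorem claimSp12 : Claim true false 0xa402800000000000000000000000000000000000b02 := clm chkSp12 refsD

theorem claimSp13 : Claim true false 0x60a80000000000000000000000000000000020090a := clm chkSp13 refsD

theorem claimSp14 : Claim true false 0x40aa00000000000000000000000000000000200902 := clm chkSp14 refsD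

theorem claimSp10 : Claim true false 0x402800000000000000000000000000000000000902 := clm chkSp10 (rapp refsD (rcons claimSp11 (rcons claimSp12 (rcons claimSp13 (rcons claimSp14 rnil)))))

theorem claimSp16 : Claim true false 0xc006800000000000000000000000000000000010a12 := clm chkSp16 refsD

theorem claimSp17 : Claim true false 0x8006c00000000000000000000000000000000010a02 := clm chkSp17 refsD

theorem claimSp15 : Claim true false 0x6800000000000000000000000000000000000802 := clm chkSp15 (rapp refsD (rcons claimSp16 (rcons claimSp17 rnil)))

theorem claimSp18 : Claim true false 0x8422800000000000000000000000000000000000302 := clm chkSp18 refsD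

theorem claimSp19 : Claim true false 0x42a800000000000000000000000000000000000102 := clm chkSp19 refsD

theorem claimSp21 : Claim true false 0xa1008000000000000000000000000000000000202c := clm chkSp21 refsD

theorem claimSp22 : Claim true false 0x29008000000000000000000000000000000002002c := clm chkSp22 refsD

theorem claimSp23 : Claim true false 0x1401028000000000000000000000000000000000c034 := clm chkSp23 refsD

theorem claimSp24 : Claim true false 0x4110280000000000000000000000000000000008034 := clm chkSp24 refsD

theorem claimSp25 : Claim true false 0x306800000000000000000000000000000001080a4 := clm chkSp25 refsD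

theorem claimSp26 : Claim true false 0x12680000000000000000000000000000000108024 := clm chkSp26 refsD

theorem claimSp27 : Claim true false 0x4210280000000000000000000000000000000000034 := clm chkSp27 refsD

theorem claimSp28 : Claim true false 0x210680000000000000000000000000000000000024 := clm chkSp28 refsD

theorem claimSp20 : Claim true false 0x10080000000000000000000000000000000000024 := clm chkSp20 (rapp refsD (rcons claimSp21 (rcons claimSp22 (rcons claimSp23 (rcons claimSp24 (rcons claimSp25 (rcons claimSp26 (rcons claimSp27 (rcons claimSp28 rnil)))))))))

theorem claimSp31 : Claim true false 0x24200180000000000000000000000000000000080438 := clm chkSp31 refsD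

theorem claimSp32 : Claim true false 0x6200180000000000000000000000000000000000438 := clm chkSp32 refsD

theorem claimSp33 : Claim true false 0x600580000000000000000000000000000000100528 := clm chkSp33 refsD

theorem claimSp34 : Claim true false 0x204580000000000000000000000000000000100428 := clm chkSp34 refsD

theorem claimSp30 : Claim true false 0x200180000000000000000000000000000000000428 := clm chkSp30 (rapp refsD (rcons claimSp31 (rcons claimSp32 (rcons claimSp33 (rcons claimSp34 rnil)))))

theorem claimSp36 : Claim true false 0xc000380000000000000000000000000000000008630 := clm chkSp36 refsD

theorem claimSp37 : Claim true false 0x4008380000000000000000000000000000000008430 := clm chkSp37 refsD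

theorem claimSp35 : Claim true false 0x380000000000000000000000000000000000420 := clm chkSp35 (rapp refsD (rcons claimSp36 (rcons claimSp37 rnil)))

theorem claimSp38 : Claim true false 0x4210180000000000000000000000000000000000038 := clm chkSp38 refsD

theorem claimSp39 : Claim true false 0x210580000000000000000000000000000000000028 := clm chkSp39 refsD

theorem claimSp29 : Claim true false 0x180000000000000000000000000000000000020 := clm chkSp29 (rapp refsD (rcons claimSp30 (rcons claimSp35 (rcons claimSp38 (rcons claimSp39 rnil)))))

theorem claimSp40 : Claim true false 0x30880000000000000000000000000000000000084 := clm chkSp40 refsD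

theorem claimSp42 : Claim true false 0x412880000000000000000000000000000000000904 := clm chkSp42 refsD

theorem claimSp43 : Claim true false 0x16880000000000000000000000000000000000804 := clm chkSp43 refsD

theorem claimSp41 : Claim true false 0x12880000000000000000000000000000000000004 := clm chkSp41 (rapp refsD (rcons claimSp42 (rcons claimSp43 rnil)))

theorem claimSp45 : Claim true false 0x4200980000000000000000000000000000000000418 := clm chkSp45 refsD

theorem claimSp46 : Claim true false 0x200d80000000000000000000000000000000000408 := clm chkSp46 refsD

theorem claimSp44 : Claim true false 0x980000000000000000000000000000000000400 := clm chkSp44 (rapp refsD (rcons claimSp45 (rcons claimSp46 rnil)))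

theorem claimSp47 : Claim true false 0x10980000000000000000000000000000000000000 := clm chkSp47 refsD

theorem claimS : Claim true false 0x0 := clm chkS (rapp refsD (rcons claimSp0 (rcons claimSp3 (rcons claimSp10 (rcons claimSp15 (rcons claimSp18 (rcons claimSp19 (rcons claimSp20 (rcons claimSp29 (rcons claimSp40 (rcons claimSp41 (rcons claimSp44 (rcons claimSp47 rnil)))))))))))))

end Pool.Agent.MP_62a449_al.Five
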