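import Pool.Agent.Lib.MP_62a449_al.Five.Asm
import Pool.Agent.Lib.MP_62a449_al.Five.Cert.M00
import Pool.Agent.Lib.MP_62a449_al.Five.Cert.M01

/-! The claims proved by the certificates. -/

namespace Pool.Agent.MP_62a449_al.Five

theorem claimX0p0 : Claim false true 0x5408400000000000000000000000000000000600008802 := clm chkX0p0 rnil

theorem claimX0p1 : Claim false true 0x5008600000000000000000000000000000000600000802 := clm chkX0p1 rnil

theorem claimX0p3 : Claim false true 0x41200020800000000000000000000000000000104000482 := clm chkX0p3 rnil

theorem claimX0p4 : Claim false true 0x1200022800000000000000000000000000000104000402 := clm chkX0p4 rnil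

theorem claimX0p2 : Claim false true 0x1200020000000000000000000000000000000100000402 := clm chkX0p2 (rcons claimX0p3 (rcons claimX0p4 rnil))

theorem claimX0p5 : Claim false true 0x1000030000000000000000000000000000000100000002 := clm chkX0p5 rnil

theorem claimX0p6 : Claim false true 0x46000000048000000000000000000000000020004000008c := clm chkX0p6 rnil

theorem claimX0p7 : Claim false true 0x42000000248000000000000000000000000020004000000c := clm chkX0p7 rnil

theorem claimX0p8 : Claim false true 0x8060000000280000000000000000000000000010040000094 := clm chkX0p8 rnil

theorem claimX0p9 : Claim false true 0x8020000002280000000000000000000000000010040000014 := clm chkX0p9 rnil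

theorem claimX0p10 : Claim false true 0x8c00000000180000000000000000000000000000840000118 := clm chkX0p10 rnil

theorem claimX0p11 : Claim false true 0x8400000004180000000000000000000000000000840000018 := clm chkX0p11 rnil

theorem claimX0 : Claim false true 0x0 := clm chkX0 (rcons claimX0p0 (rcons claimX0p1 (rcons claimX0p2 (rcons claimX0p5 (rcons claimX0p6 (rcons claimX0p7 (rcons claimX0p8 (rcons claimX0p9 (rcons claimX0p10 (rcons claimX0p11 rnil))))))))))

end Pool.Agent.MP_62a449_al.Five
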